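import Pool.Agent.Run7.h219.OS.C1

/-!
Gluing a smooth solution on `[0, T)` and a very weak solution started at the time `T` (piece C).
-/

set_option autoImplicit false

open MeasureTheory Set Filter Topology
open scoped ContDiff ComplexConjugate

namespace Pool.Agent.Run7.h219.OS

open H459R3.NS Pool.Agent.Run7.h782 Pool.Agent.Run7.h782.GD Pool.Agent.Run7.h782.GS
open Pool.Agent.Run7.h782.WS Pool.Agent.Run7.h782.WQ Pool.Agent.Run7.h744.WS
open Pool.Agent.Run7.h969.WS Pool.Agent.Run7.h782.OS Run7.h475.WS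

variable {ν T : ℝ}

/-- A smooth function of time which vanishes on `[s, ∞)` has derivative zero there. -/
theorem deriv_zero {χ : ℝ → ℝ} (hχ : ContDiff ℝ ∞ χ) {s : ℝ} (hs : ∀ t, s ≤ t → χ t = 0) :
    ∀ t, s ≤ t → deriv χ t = 0 := by
  intro t ht
  have h1 : HasDerivAt χ (deriv χ t) t :=
    (hχ.differentiable (by norm_num)).differentiableAt.hasDerivAt
  have h2 : HasDerivWithinAt χ (deriv χ t) (Ici t) t := h1.hasDerivWithinAt
  have h3 : HasDerivWithinAt χ 0 (Ici t) t :=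
    (hasDerivWithinAt_const t (Ici t) (0 : ℝ)).congr (fun r hr => hs r (ht.trans hr)) (hs t ht)
  exact (uniqueDiffWithinAt_Ici t).eq_deriv _ h2 h3

theorem inner_Ioo {a b T' : ℝ} {f : ℝ × V → ℝ} (hT' : b ≤ T')
    (h0 : ∀ z : ℝ × V, b ≤ z.1 → f z = 0) :
    ∫ z in Ioo a T' ×ˢ cube, f z = ∫ z in Ioo a b ×ˢ cube, f z := by
  refine setIntegral_eq_of_subset_of_forall_sdiff_eq_zero (boxm a T')
    (prod_mono (Ioo_subset_Ioo_right hT') le_rfl) fun z hz => ?_
  refine h0 z ?_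
  by_contra hlt
  exact hz.2 ⟨⟨hz.1.1.1, not_le.1 hlt⟩, hz.1.2⟩

/-- Very weak solutions on an interval are very weak solutions on the shorter ones. -/
theorem vw_mono {c : Cf} {u : ℝ → V → V} {T' : ℝ} (h : VW ν T' c u) (hT : T ≤ T') :
    VW ν T c u := by
  have hsub : Ioo 0 T ×ˢ cube ⊆ Ioo 0 T' ×ˢ cube := prod_mono (Ioo_subset_Ioo_right hT) le_rfl
  refine ⟨fun i => (h.meas i).mono_set hsub, fun i => (h.sq i).mono_set hsub, ?_, ?_⟩
  · intro χ φ hχ h0 hφ hp
    refine Eq.trans ?_ (h.div χ φ hχ (fun t ht => h0 t (hT.trans ht)) hφ hp)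
    refine (inner_Ioo hT fun z hz => ?_).symm
    simp only [h0 z.1 hz, zero_mul]
  · rintro χ φ hχ ⟨s, hs, h0⟩ hφ hp hd
    refine Eq.trans ?_ (h.weak χ φ hχ ⟨s, hs.trans_le hT, h0⟩ hφ hp hd)
    refine congrArg (fun r => χ 0 * (∑ i, pr c i (fun x => φ x i)) + r) ?_
    refine (inner_Ioo hT fun z hz => ?_).symm
    simp only [h0 z.1 (hs.le.trans hz), deriv_zero hχ h0 z.1 (hs.le.trans hz), zero_mul, add_zero]

/-- The two parts of the box. -/
def two (T T' : ℝ) : Set (ℝ × V) := (Ioo 0 T ×ˢ cube) ∪ (Ioo T T' ×ˢ cube)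

theorem box_ae {T' : ℝ} (hT : 0 < T) (hT' : T < T') :
    (Ioo 0 T' ×ˢ cube : Set (ℝ × V)) =ᵐ[volume] two T T' := by
  unfold two
  have e : (Ioo 0 T' ×ˢ cube : Set (ℝ × V))
      = ((Ioo 0 T ×ˢ cube) ∪ (Ioo T T' ×ˢ cube)) ∪ ({T} ×ˢ cube) := by
    ext z
    simp only [mem_prod, mem_union, mem_Ioo, mem_singleton_iff]
    constructor
    · rintro ⟨⟨h1, h2⟩, h3⟩
      rcases lt_trichotomy z.1 T with h | h | h
      · exact Or.inl (Or.inl ⟨⟨h1, h⟩, h3⟩)
      · exact Or.inr ⟨h, h3⟩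
      · exact Or.inl (Or.inr ⟨⟨h, h2⟩, h3⟩)
    · rintro ((⟨⟨h1, h2⟩, h3⟩ | ⟨⟨h1, h2⟩, h3⟩) | ⟨h1, h3⟩)
      · exact ⟨⟨h1, h2.trans hT'⟩, h3⟩
      · exact ⟨⟨hT.trans h1, h2⟩, h3⟩
      · exact ⟨⟨h1 ▸ hT, h1 ▸ hT'⟩, h3⟩
  have h0 : volume (({T} ×ˢ cube : Set (ℝ × V))) = 0 := by
    rw [Measure.volume_eq_prod, Measure.prod_prod]
    simp
  rw [e]
  exact union_ae_eq_left_of_ae_eq_empty (ae_eq_empty.2 h0)

theorem box_disj (T' : ℝ) :
    Disjoint (Ioo 0 T ×ˢ cube : Set (ℝ × V)) (Ioo T T' ×ˢ cube) := by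
  rw [Set.disjoint_left]
  rintro z ⟨h1, -⟩ ⟨h2, -⟩
  exact lt_asymm h1.2 h2.1

/-- Translation in time. -/
theorem shift_me : MeasurableEmbedding (fun z : ℝ × V => ((z.1 - T, z.2) : ℝ × V)) := by
  have h : MeasurableEmbedding (fun t : ℝ => t - T) :=
    (MeasurableEquiv.subRight T).measurableEmbedding
  exact h.prodMap MeasurableEmbedding.id

theorem shift_mp (T' : ℝ) : MeasurePreserving (fun z : ℝ × V => ((z.1 - T, z.2) : ℝ × V))
    (volume.restrict (Ioo T T' ×ˢ cube)) (volume.restrict (Ioo 0 (T' - T) ×ˢ cube)) := by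
  have h : MeasurePreserving (fun z : ℝ × V => ((z.1 - T, z.2) : ℝ × V)) volume volume :=
    (measurePreserving_sub_right volume T).prod (MeasurePreserving.id volume)
  have e : Ioo T T' ×ˢ cube
      = (fun z : ℝ × V => ((z.1 - T, z.2) : ℝ × V)) ⁻¹' (Ioo 0 (T' - T) ×ˢ cube) := by
    ext z
    simp only [mem_prod, mem_preimage, mem_Ioo, sub_pos, sub_lt_sub_iff_right]
  rw [e]
  exact h.restrict_preimage (boxm 0 (T' - T))

theorem shift_int {T' : ℝ} {f : ℝ × V → ℝ} (hf : IntegrableOn f (Ioo 0 (T' - T) ×ˢ cube)) :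
    IntegrableOn (fun z : ℝ × V => f (z.1 - T, z.2)) (Ioo T T' ×ˢ cube) :=
  ((shift_mp T').integrable_comp_emb shift_me).2 hf

theorem shift_eq (T' : ℝ) (f : ℝ × V → ℝ) :
    ∫ z in Ioo T T' ×ˢ cube, f (z.1 - T, z.2) = ∫ z in Ioo 0 (T' - T) ×ˢ cube, f z :=
  (shift_mp T').integral_comp shift_me f

/-- The field `glue` on the two parts. -/
theorem glue_left {v w : ℝ → V → V} {z : ℝ × V} (hz : z ∈ Ioo 0 T ×ˢ cube) :
    glue T v w z.1 = v z.1 := by
  unfold glue
  rw [if_pos hz.1.2]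

theorem glue_right {v w : ℝ → V → V} {T' : ℝ} {z : ℝ × V} (hz : z ∈ Ioo T T' ×ˢ cube) :
    glue T v w z.1 = w (z.1 - T) := by
  unfold glue
  rw [if_neg (not_lt.2 hz.1.1.le)]

/-- **Piece C**, for late end points. -/
theorem glue_vw (hν : 0 < ν) (hT : 0 < T) {v : ℝ → V → V} {q : ℝ → V → ℝ} (h : IsSol ν T v q)
    (hL : ∀ i, IntegrableOn (fun z : ℝ × V => v z.1 z.2 i ^ 2) (Ioo 0 T ×ˢ cube)) {c : Cf}
    (hc : ∀ (i : Fin 3) (ψ : V → ℝ), ContDiff ℝ ∞ ψ → Per ψ →
      Tendsto (fun t => ∫ x in cube, v t x i * ψ x) (𝓝[<] T) (𝓝 (pr c i ψ)))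
    {w : ℝ → V → V} {T' : ℝ} (hT' : T < T') (hw : VW ν (T' - T) c w) :
    VW ν T' (vf (v 0)) (glue T v w) := by
  -- measurability and integrability of functions given on the two parts
  have hint : ∀ F f g : ℝ × V → ℝ, (∀ z ∈ Ioo 0 T ×ˢ cube, F z = f z) →
      (∀ z ∈ Ioo T T' ×ˢ cube, F z = g (z.1 - T, z.2)) → IntegrableOn f (Ioo 0 T ×ˢ cube) →
      IntegrableOn g (Ioo 0 (T' - T) ×ˢ cube) → IntegrableOn F (Ioo 0 T' ×ˢ cube) ∧
      ∫ z in Ioo 0 T' ×ˢ cube, F z = (∫ z in Ioo 0 T ×ˢ cube, f z)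
        + ∫ z in Ioo 0 (T' - T) ×ˢ cube, g z := by
    intro F f g h1 h2 hf hg
    have i1 : IntegrableOn F (Ioo 0 T ×ˢ cube) :=
      hf.congr_fun (fun z hz => (h1 z hz).symm) (boxm 0 T)
    have i2 : IntegrableOn F (Ioo T T' ×ˢ cube) :=
      (shift_int hg).congr_fun (fun z hz => (h2 z hz).symm) (boxm T T')
    have i3 : IntegrableOn F (two T T') volume := i1.union i2
    refine ⟨i3.congr_set_ae (box_ae hT hT'), ?_⟩
    rw [setIntegral_congr_set (box_ae hT hT'), two,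
      setIntegral_union (box_disj T') (boxm T T') i1 i2,
      setIntegral_congr_fun (boxm 0 T) h1, setIntegral_congr_fun (boxm T T') h2,
      shift_eq T' g]
  refine ⟨fun i => ?_, fun i => ?_, ?_, ?_⟩
  · rw [Measure.restrict_congr_set (box_ae hT hT'), two, aestronglyMeasurable_union_iff]
    constructor
    · exact (meas_loc h i).congr ((ae_restrict_mem (boxm 0 T)).mono fun z hz => by
        show v z.1 z.2 i = glue T v w z.1 z.2 i
        rw [glue_left hz])
    · have h1 : AEStronglyMeasurable (fun z : ℝ × V => w (z.1 - T) z.2 i)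
          (volume.restrict (Ioo T T' ×ˢ cube)) :=
        (hw.meas i).comp_measurePreserving (shift_mp T')
      exact h1.congr ((ae_restrict_mem (boxm T T')).mono fun z hz => by
        show w (z.1 - T) z.2 i = glue T v w z.1 z.2 i
        rw [glue_right hz])
  · exact (hint _ (fun z => v z.1 z.2 i ^ 2) (fun z => w z.1 z.2 i ^ 2)
      (fun z hz => by simp only [glue_left hz]) (fun z hz => by simp only [glue_right hz])
      (hL i) (hw.sq i)).1
  · intro χ φ hχ h0 hφ hp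
    have hSP : SP φ := ⟨hφ, hp⟩
    have j1 : ∀ (a b : ℝ) (u : ℝ → V → V) (η : ℝ → ℝ), Continuous η →
        (∀ i, AEStronglyMeasurable (fun z : ℝ × V => u z.1 z.2 i)
          (volume.restrict (Ioo a b ×ˢ cube))) →
        (∀ i, IntegrableOn (fun z : ℝ × V => u z.1 z.2 i ^ 2) (Ioo a b ×ˢ cube)) →
        IntegrableOn (fun z : ℝ × V => η z.1 * ∑ i, u z.1 z.2 i * pd i φ z.2)
          (Ioo a b ×ˢ cube) := by
      intro a b u η hη hm h2
      have k1 : IntegrableOn (fun z : ℝ × V => ∑ i, u z.1 z.2 i * pd i φ z.2)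
          (Ioo a b ×ˢ cube) :=
        integrable_finsetSum _ fun i _ => mul_int (ψ := fun z : ℝ × V => pd i φ z.2)
          (lin_int (hm i) (h2 i)) ((hSP.pd i).cont.comp continuous_snd)
      refine (mul_int (ψ := fun z : ℝ × V => η z.1) k1 (hη.comp continuous_fst)).congr ?_
      exact Eventually.of_forall fun z => mul_comm _ _
    have hχT : ContDiff ℝ ∞ fun t => χ (t + T) := hχ.comp (contDiff_id.add contDiff_const)
    rw [(hint (fun z => χ z.1 * ∑ i, glue T v w z.1 z.2 i * pd i φ z.2)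
      (fun z => χ z.1 * ∑ i, v z.1 z.2 i * pd i φ z.2)
      (fun z => χ (z.1 + T) * ∑ i, w z.1 z.2 i * pd i φ z.2)
      (fun z hz => by simp only [glue_left hz])
      (fun z hz => by simp only [glue_right hz, sub_add_cancel])
      (j1 0 T v χ hχ.continuous (fun i => meas_loc h i) hL)
      (j1 0 (T' - T) w (fun t => χ (t + T)) hχT.continuous hw.meas hw.sq)).2]
    have k1 := hw.div (fun t => χ (t + T)) φ hχT (fun t ht => h0 _ (by linarith)) hφ hp
    rw [k1, add_zero]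
    have k2 := j1 0 T v χ hχ.continuous (fun i => meas_loc h i) hL
    rw [Measure.volume_eq_prod] at k2 ⊢
    rw [setIntegral_prod _ k2]
    have k3 : ∀ t ∈ Ioo (0 : ℝ) T, ∫ x in cube, χ t * ∑ i, v t x i * pd i φ x = 0 := by
      intro t ht
      have ht' : t ∈ Ico 0 T := ⟨ht.1.le, ht.2⟩
      rw [integral_const_mul, integral_finsetSum _ fun i _ =>
        ((h.sp ht' i).mul (hSP.pd i)).int]
      have h2 := int_press (fun i => h.sp ht' i) (h.divfree t ht') hSP
      rw [h2, mul_zero]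
    rw [setIntegral_congr_fun measurableSet_Ioo k3]
    simp
  · rintro χ φ hχ ⟨s, hs, h0⟩ hφ hp hd
    have hχT : ContDiff ℝ ∞ fun t => χ (t + T) := hχ.comp (contDiff_id.add contDiff_const)
    have hdT : ∀ t, deriv (fun t => χ (t + T)) t = deriv χ (t + T) := fun t =>
      deriv_comp_add_const _ _ _
    have k1 := stmC1 ν T hν hT v q h hL c hc χ φ hχ hφ hp hd
    have k2 := hw.weak (fun t => χ (t + T)) φ hχT ⟨s - T, by linarith, fun t ht => h0 _ (by linarith)⟩
      hφ hp hd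
    rw [zero_add] at k2
    have k3 := (hint (wk ν (glue T v w) χ φ) (wk ν v χ φ) (wk ν w (fun t => χ (t + T)) φ)
      (fun z hz => by simp only [wk, glue_left hz])
      (fun z hz => by simp only [wk, glue_right hz, hdT, sub_add_cancel])
      (wk_int (fun i => meas_loc h i) hL hχ hφ hp)
      (wk_int hw.meas hw.sq hχT hφ hp)).2
    show χ 0 * (∑ i, pr (vf (v 0)) i (fun x => φ x i))
      + ∫ z in Ioo 0 T' ×ˢ cube, wk ν (glue T v w) χ φ z = 0
    have k4 : χ T * (∑ i, pr c i (fun x => φ x i))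
      + ∫ z in Ioo 0 (T' - T) ×ˢ cube, wk ν w (fun t => χ (t + T)) φ z = 0 := k2
    rw [k3]
    linarith

/-- **Piece C.** -/
theorem stmC : StmC := by
  intro ν T hν hT v q h hL c hc w hw T' hT'
  have h1 := glue_vw hν hT h hL hc (T' := max T' (T + 1))
    ((lt_add_one T).trans_le (le_max_right _ _))
    (hw _ (sub_pos.2 ((lt_add_one T).trans_le (le_max_right _ _))))
  exact vw_mono h1 (le_max_left _ _)

end Pool.Agent.Run7.h219.OS
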