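import Pool.Agent.Run7.h782.OS.Defs
import Pool.Agent.Run7.h475.WS.Wk
import Pool.Agent.Run7.h980.WS.PairH
import Pool.Agent.H459R3.NS.Evo

/-!
The very weak formulation for smooth solutions on `[0, T)` which have a limit at the time `T`
(piece C1).
-/

set_option autoImplicit false

open MeasureTheory Set Filter Topology
open scoped ContDiff ComplexConjugate

namespace Pool.Agent.Run7.h219.OS

open H459R3.NS Pool.Agent.Run7.h782 Pool.Agent.Run7.h782.GD Pool.Agent.Run7.h782.GS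
open Pool.Agent.Run7.h782.WS Pool.Agent.Run7.h782.WQ Pool.Agent.Run7.h744.WS
open Pool.Agent.Run7.h969.WS Pool.Agent.Run7.h782.OS Run7.h475.WS

section

variable {ν T : ℝ} {v : ℝ → V → V} {q : ℝ → V → ℝ} {φ : V → V}

theorem boxm (a b : ℝ) : MeasurableSet (Ioo a b ×ˢ cube) := measurableSet_Ioo.prod cube_meas

theorem box_fin (a b : ℝ) : volume (Ioo a b ×ˢ cube) < ⊤ := by
  rw [Measure.volume_eq_prod, Measure.prod_prod]
  exact ENNReal.mul_lt_top measure_Ioo_lt_top cube_compact.measure_lt_top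

theorem mul_int {a b : ℝ} {f ψ : ℝ × V → ℝ} (hf : IntegrableOn f (Ioo a b ×ˢ cube))
    (hψ : Continuous ψ) : IntegrableOn (fun z => f z * ψ z) (Ioo a b ×ˢ cube) :=
  hf.mul_continuousOn_of_subset hψ.continuousOn (boxm a b) (isCompact_Icc.prod cube_compact)
    (prod_mono Ioo_subset_Icc_self le_rfl)

/-- Square integrable functions are integrable. -/
theorem lin_int {a b : ℝ} {w : ℝ × V → ℝ}
    (hm : AEStronglyMeasurable w (volume.restrict (Ioo a b ×ˢ cube)))
    (h2 : IntegrableOn (fun z => w z ^ 2) (Ioo a b ×ˢ cube)) :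
    IntegrableOn w (Ioo a b ×ˢ cube) := by
  have hc : IntegrableOn (fun _ : ℝ × V => (1 : ℝ)) (Ioo a b ×ˢ cube) :=
    integrableOn_const (box_fin a b).ne
  refine Integrable.mono' (h2.add hc) hm (Eventually.of_forall fun z => ?_)
  rw [Real.norm_eq_abs]
  show |w z| ≤ w z ^ 2 + 1
  nlinarith [sq_nonneg (|w z| - 1), sq_abs (w z)]

theorem prod_int {a b : ℝ} {w w' : ℝ × V → ℝ}
    (hm : AEStronglyMeasurable w (volume.restrict (Ioo a b ×ˢ cube)))
    (hm' : AEStronglyMeasurable w' (volume.restrict (Ioo a b ×ˢ cube)))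
    (h2 : IntegrableOn (fun z => w z ^ 2) (Ioo a b ×ˢ cube))
    (h2' : IntegrableOn (fun z => w' z ^ 2) (Ioo a b ×ˢ cube)) :
    IntegrableOn (fun z => w z * w' z) (Ioo a b ×ˢ cube) := by
  refine Integrable.mono' (h2.add h2') (hm.mul hm') (Eventually.of_forall fun z => ?_)
  rw [Real.norm_eq_abs, abs_mul]
  show |w z| * |w' z| ≤ w z ^ 2 + w' z ^ 2
  nlinarith [sq_nonneg (|w z| - |w' z|), sq_abs (w z), sq_abs (w' z), sq_nonneg (w z),
    sq_nonneg (w' z)]

/-- The integrands of the very weak formulation are integrable. -/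
theorem wk_ints {a b : ℝ} (hm : ∀ i, AEStronglyMeasurable (fun z : ℝ × V => v z.1 z.2 i)
      (volume.restrict (Ioo a b ×ˢ cube)))
    (hL : ∀ i, IntegrableOn (fun z : ℝ × V => v z.1 z.2 i ^ 2) (Ioo a b ×ˢ cube))
    (hφ : ContDiff ℝ ∞ φ) (hp : Per φ) :
    IntegrableOn (fun z : ℝ × V => ∑ i, v z.1 z.2 i * φ z.2 i) (Ioo a b ×ˢ cube) ∧
      IntegrableOn (gg ν v φ) (Ioo a b ×ˢ cube) := by
  have hlin := fun i => lin_int (hm i) (hL i)
  refine ⟨integrable_finsetSum _ fun i _ => mul_int (ψ := fun z : ℝ × V => φ z.2 i) (hlin i)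
    ((contDiff_pi.1 hφ i).continuous.comp continuous_snd), ?_⟩
  unfold gg
  refine Integrable.add ?_ ?_
  · exact integrable_finsetSum _ fun i _ => integrable_finsetSum _ fun j _ =>
      mul_int (ψ := fun z : ℝ × V => pd i (fun y => φ y j) z.2)
        (prod_int (hm i) (hm j) (hL i) (hL j))
        (((sp_φ hφ hp j).pd i).cont.comp continuous_snd)
  · refine Integrable.const_mul ?_ ν
    exact integrable_finsetSum _ fun i _ =>
      mul_int (ψ := fun z : ℝ × V => ∑ j, pd j (pd j (fun y => φ y i)) z.2) (hlin i)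
        ((continuous_finsetSum _ fun j _ => (((sp_φ hφ hp i).pd j).pd j).cont).comp continuous_snd)

theorem wk_int {a b : ℝ} (hm : ∀ i, AEStronglyMeasurable (fun z : ℝ × V => v z.1 z.2 i)
      (volume.restrict (Ioo a b ×ˢ cube)))
    (hL : ∀ i, IntegrableOn (fun z : ℝ × V => v z.1 z.2 i ^ 2) (Ioo a b ×ˢ cube))
    {χ : ℝ → ℝ} (hχ : ContDiff ℝ ∞ χ) (hφ : ContDiff ℝ ∞ φ) (hp : Per φ) :
    IntegrableOn (wk ν v χ φ) (Ioo a b ×ˢ cube) := by
  have h := wk_ints (ν := ν) hm hL hφ hp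
  have hχd : Continuous (deriv χ) := hχ.continuous_deriv (by norm_cast)
  have i1 : IntegrableOn (fun z : ℝ × V => deriv χ z.1 * (∑ i, v z.1 z.2 i * φ z.2 i))
      (Ioo a b ×ˢ cube) := by
    refine (mul_int (ψ := fun z : ℝ × V => deriv χ z.1) h.1 (hχd.comp continuous_fst)).congr ?_
    exact Eventually.of_forall fun z => mul_comm _ _
  have i2 : IntegrableOn (fun z : ℝ × V => χ z.1 * gg ν v φ z) (Ioo a b ×ˢ cube) := by
    refine (mul_int (ψ := fun z : ℝ × V => χ z.1) h.2 (hχ.continuous.comp continuous_fst)).congr ?_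
    exact Eventually.of_forall fun z => mul_comm _ _
  exact i1.add i2

theorem meas_loc (h : IsSol ν T v q) (i : Fin 3) :
    AEStronglyMeasurable (fun z : ℝ × V => v z.1 z.2 i) (volume.restrict (Ioo 0 T ×ˢ cube)) :=
  ((h.smooth_c i).continuousOn.mono (show Ioo 0 T ×ˢ cube ⊆ Ico 0 T ×ˢ univ from
    fun _ hz => ⟨⟨hz.1.1.le, hz.1.2⟩, mem_univ _⟩)).aestronglyMeasurable (boxm 0 T)

/-- The spatial identity at one time. -/
theorem at_time_loc (h : IsSol ν T v q) (hφ : ContDiff ℝ ∞ φ) (hp : Per φ)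
    (hd : ∀ x, ∑ i, pd i (fun y => φ y i) x = 0) {t : ℝ} (ht : t ∈ Ioo 0 T) :
    ∫ x in cube, hh v φ (t, x) = ∫ x in cube, gg ν v φ (t, x) := by
  have ht' : t ∈ Ico 0 T := ⟨ht.1.le, ht.2⟩
  have h1 := space ν (fun i => h.sp ht' i) (fun i => sp_φ hφ hp i) (h.sp_p ht')
    (h.divfree t ht') hd
  refine Eq.trans ?_ h1
  congr 1
  funext x
  unfold hh
  refine Finset.sum_congr rfl fun i _ => ?_
  have hm := h.momentum t ht x i
  have e : deriv (fun s => v s x i) t = ν * ∑ j, pd j (pd j (fun y => v t y i)) x - pd i (q t) x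
      - ∑ j, v t x j * pd j (fun y => v t y i) x := by linarith
  show deriv (fun s => v s x i) t * φ x i = _
  rw [e]

theorem vφ_smooth (h : IsSol ν T v q) (hφ : ContDiff ℝ ∞ φ) (i : Fin 3) :
    ContDiffOn ℝ ∞ (fun z : ℝ × V => v z.1 z.2 i * φ z.2 i) (Ico 0 T ×ˢ univ) :=
  (h.smooth_c i).mul (((contDiff_pi.1 hφ i).comp contDiff_snd).contDiffOn)

/-- The equation for the pairing with a divergence free field. -/
theorem pair_deriv (h : IsSol ν T v q) (hφ : ContDiff ℝ ∞ φ) (hp : Per φ)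
    (hd : ∀ x, ∑ i, pd i (fun y => φ y i) x = 0) {t : ℝ} (ht : t ∈ Ioo 0 T) :
    HasDerivAt (fun s => ∫ x in cube, ∑ i, v s x i * φ x i) (∫ x in cube, gg ν v φ (t, x)) t := by
  have hF : ContDiffOn ℝ ∞ (fun z : ℝ × V => ∑ i, v z.1 z.2 i * φ z.2 i) (Ico 0 T ×ˢ univ) :=
    ContDiffOn.sum fun i _ => vφ_smooth h hφ i
  have h1 := hasDerivAt_int (F := fun s x => ∑ i, v s x i * φ x i)
    (mono_Ioo (f := fun s x => ∑ i, v s x i * φ x i) hF (by norm_cast)) ht
  rw [← at_time_loc h hφ hp hd ht]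
  refine h1.congr_deriv ?_
  congr 1
  funext x
  unfold hh
  have h2 := HasDerivAt.fun_sum (u := Finset.univ) fun (i : Fin 3) _ =>
    (hasDerivAt_slice (F := fun s y => v s y i)
      (mono_Ioo (f := fun s y => v s y i) (h.smooth_c i) (by norm_cast)) ht x).mul_const (φ x i)
  rw [h2.deriv]
  refine Finset.sum_congr rfl fun i _ => ?_
  rw [(hasDerivAt_slice (F := fun s y => v s y i)
      (mono_Ioo (f := fun s y => v s y i) (h.smooth_c i) (by norm_cast)) ht x).deriv]

end

/-- **Piece C1.** -/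
theorem stmC1 : StmC1 := by
  intro ν T hν hT v q h hL c hc χ φ hχ hφ hp hd
  have hχc : Continuous χ := hχ.continuous
  have hχd : Continuous (deriv χ) := hχ.continuous_deriv (by norm_cast)
  obtain ⟨i1, i2⟩ := wk_ints (ν := ν) (fun i => meas_loc h i) hL hφ hp
  have hwk := wk_int (ν := ν) (fun i => meas_loc h i) hL hχ hφ hp
  set G : ℝ → ℝ := fun s => ∫ x in cube, ∑ i, v s x i * φ x i with hG
  set g : ℝ → ℝ := fun s => ∫ x in cube, gg ν v φ (s, x) with hg
  have hslice : ∀ (f : ℝ × V → ℝ), IntegrableOn f (Ioo 0 T ×ˢ cube) →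
      IntegrableOn (fun s => ∫ x in cube, f (s, x)) (Ioo 0 T) := by
    intro f hf
    rw [IntegrableOn, Measure.volume_eq_prod, ← Measure.prod_restrict] at hf
    exact hf.integral_prod_left
  have hder : ∀ t ∈ Ioo (0 : ℝ) T, HasDerivAt (fun s => χ s * G s)
      (deriv χ t * G t + χ t * g t) t := fun t ht =>
    ((hχ.differentiable (by norm_num)).differentiableAt.hasDerivAt).mul
      (pair_deriv h hφ hp hd ht)
  -- the integrand
  have e : ∀ t ∈ Ioo (0 : ℝ) T, ∫ x in cube, wk ν v χ φ (t, x)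
      = deriv χ t * G t + χ t * g t := by
    intro t ht
    have ht' : t ∈ Ico 0 T := ⟨ht.1.le, ht.2⟩
    show ∫ x in cube, (deriv χ t * (∑ i, v t x i * φ x i) + χ t * gg ν v φ (t, x)) = _
    have j1 : IntegrableOn (fun x => ∑ i, v t x i * φ x i) cube :=
      (SP.sum (s := Finset.univ) fun i _ => (h.sp ht' i).mul (sp_φ hφ hp i)).int
    have j2 : IntegrableOn (fun x => gg ν v φ (t, x)) cube := by
      have i4 : IntegrableOn (fun x => ∑ i, ∑ j, v t x i * v t x j * pd i (fun y => φ y j) x) cube :=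
        (SP.sum (s := Finset.univ) fun i _ => SP.sum (s := Finset.univ) fun j _ =>
          ((h.sp ht' i).mul (h.sp ht' j)).mul ((sp_φ hφ hp j).pd i)).int
      have i5 : IntegrableOn (fun x => ν * ∑ i, v t x i * ∑ j, pd j (pd j (fun y => φ y i)) x) cube :=
        (SP.sum (s := Finset.univ) fun i _ => (h.sp ht' i).mul
          (SP.sum (s := Finset.univ) fun j _ => ((sp_φ hφ hp i).pd j).pd j)).int.const_mul ν
      exact i4.add i5
    rw [integral_add (j1.const_mul _) (j2.const_mul _), integral_const_mul, integral_const_mul]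
  have e2 : ∫ z in Ioo 0 T ×ˢ cube, wk ν v χ φ z
      = ∫ t in (0 : ℝ)..T, (deriv χ t * G t + χ t * g t) := by
    rw [intervalIntegral.integral_of_le hT.le, integral_Ioc_eq_integral_Ioo]
    rw [Measure.volume_eq_prod] at hwk ⊢
    rw [setIntegral_prod _ hwk]
    exact setIntegral_congr_fun measurableSet_Ioo e
  have hint : IntervalIntegrable (fun t => deriv χ t * G t + χ t * g t) volume 0 T := by
    rw [intervalIntegrable_iff_integrableOn_Ioo_of_le hT.le]
    exact (hslice _ hwk).congr_fun e measurableSet_Ioo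
  -- the limits
  have hsplit : ∀ t ∈ Ico (0 : ℝ) T, G t = ∑ i, ∫ x in cube, v t x i * φ x i := by
    intro t ht
    rw [hG]
    exact integral_finsetSum _ fun i _ => ((h.sp ht i).mul (sp_φ hφ hp i)).int
  have hb : Tendsto (fun s => χ s * G s) (𝓝[<] T)
      (𝓝 (χ T * ∑ i, pr c i (fun x => φ x i))) := by
    refine ((hχc.tendsto T).mono_left nhdsWithin_le_nhds).mul ?_
    have h1 : Tendsto (fun t => ∑ i, ∫ x in cube, v t x i * φ x i) (𝓝[<] T)
        (𝓝 (∑ i, pr c i (fun x => φ x i))) :=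
      tendsto_finsetSum _ fun i _ => hc i (fun x => φ x i) (contDiff_pi.1 hφ i)
        (sp_φ hφ hp i).per
    refine h1.congr' ?_
    filter_upwards [Ioo_mem_nhdsLT hT] with t ht
    exact (hsplit t ⟨ht.1.le, ht.2⟩).symm
  have h0 : G 0 = ∑ i, pr (vf (v 0)) i (fun x => φ x i) := by
    rw [hsplit 0 ⟨le_rfl, hT⟩]
    refine Finset.sum_congr rfl fun i _ => ?_
    show _ = (∑' k, fr (fun x => v 0 x i) k * conj (fr (fun x => φ x i) k)).re
    rw [← h980.WS.parseval (h.sp ⟨le_rfl, hT⟩ i) (contDiff_pi.1 hφ i).continuous,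
      Complex.ofReal_re]
  have ha : Tendsto (fun s => χ s * G s) (𝓝[>] 0)
      (𝓝 (χ 0 * ∑ i, pr (vf (v 0)) i (fun x => φ x i))) := by
    rw [← h0]
    refine ((hχc.tendsto 0).mono_left nhdsWithin_le_nhds).mul ?_
    have hGc : ContinuousOn G (Ico 0 T) := by
      have := continuousOn_int (F := fun s x => ∑ i, v s x i * φ x i)
        ((ContDiffOn.sum (s := Finset.univ) fun i _ => vφ_smooth h hφ i).continuousOn)
      exact this
    exact (hGc 0 ⟨le_rfl, hT⟩).mono_left (nhdsWithin_le_iff.2 (by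
      filter_upwards [Ioo_mem_nhdsGT hT] with s hs using ⟨hs.1.le, hs.2⟩))
  have hftc := intervalIntegral.integral_eq_sub_of_hasDerivAt_of_tendsto hT hder hint ha hb
  rw [e2, hftc]
  ring

end Pool.Agent.Run7.h219.OS
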