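import Pool.Agent.Run7.h219.OS.Loc
import Pool.Agent.Run7.h782.OS.Defs
import Pool.Agent.Run7.h782.WQ.StrB
import Pool.Agent.Run7.h811.WQ.NecA2
import Pool.Agent.Run7.h980.WS.PairH

/-!
Piece A of the project OS: the limit of a smooth solution at a finite time.
-/

set_option autoImplicit false

open MeasureTheory Set Filter Topology
open scoped ContDiff ENNReal ComplexConjugate

namespace Pool.Agent.Run7.h219.OS

open H459R3.NS Pool.Agent.Run7.h782.GD Pool.Agent.Run7.h782 Pool.Agent.Run7.h969.GD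
open Pool.Agent.Run7.h782.WQ Pool.Agent.Run7.h744.WS Pool.Agent.Run7 Pool.Agent.Run7.h782.OS

variable {ν T : ℝ} {U : ℝ → V → V} {P : ℝ → V → ℝ}

theorem memLp_two {f : V → ℝ} (hf : Continuous f) : MemLp f 2 (volume.restrict cube) := by
  rw [memLp_two_iff_integrable_sq hf.aestronglyMeasurable]
  exact integrableOn_cube (hf.pow 2)

/-- The energy bounds the coefficients. -/
theorem bess (h : IsSol ν T U P) (hν : 0 < ν) {t : ℝ} (ht : t ∈ Ico 0 T) (A : Finset K3) :
    ∑ k ∈ A, ‖vf (U t) k‖ ^ 2 ≤ energy (U 0) := by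
  refine le_trans ?_ (h.energy_le hν ht)
  calc ∑ k ∈ A, ‖vf (U t) k‖ ^ 2 ≤ ∑ k ∈ A, ∑ i, ‖fr (fun x => U t x i) k‖ ^ 2 := by
        refine Finset.sum_le_sum fun k _ => ?_
        have h0 : 0 ≤ ∑ i, ‖fr (fun x => U t x i) k‖ ^ 2 :=
          Finset.sum_nonneg fun i _ => sq_nonneg _
        rw [← Real.sqrt_le_sqrt_iff h0, Real.sqrt_sq (norm_nonneg _)]
        refine (pi_norm_le_iff_of_nonneg (Real.sqrt_nonneg _)).2 fun i => ?_
        refine Real.le_sqrt_of_sq_le ?_
        exact Finset.single_le_sum (f := fun i => ‖fr (fun x => U t x i) k‖ ^ 2)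
          (fun i _ => sq_nonneg _) (Finset.mem_univ i)
    _ = ∑ i, ∑ k ∈ A, ‖fr (fun x => U t x i) k‖ ^ 2 := Finset.sum_comm
    _ ≤ energy (U t) := Finset.sum_le_sum fun i _ =>
        h811.WQ.bessel_cube (memLp_two (h.sp ht i).smooth.continuous) A

theorem norm_vf_le (h : IsSol ν T U P) (hν : 0 < ν) {t : ℝ} (ht : t ∈ Ico 0 T) (k : K3) :
    ‖vf (U t) k‖ ≤ Real.sqrt (energy (U 0)) := by
  have h1 := bess h hν ht {k}
  rw [Finset.sum_singleton] at h1
  exact Real.le_sqrt_of_sq_le h1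

theorem norm_uu_le (h : IsSol ν T U P) (hν : 0 < ν) {t : ℝ} (ht : t ∈ Ico 0 T) (i j : Fin 3)
    (k : K3) : ‖uu (U t) i j k‖ ≤ energy (U 0) := by
  have hci := (h.sp ht i).smooth.continuous
  have hcj := (h.sp ht j).smooth.continuous
  have hn : ∀ i, ∫ x in cube, U t x i ^ 2 ≤ energy (U t) := fun i =>
    Finset.single_le_sum (f := fun i => ∫ x in cube, U t x i ^ 2)
      (fun _ _ => integral_nonneg fun _ => sq_nonneg _) (Finset.mem_univ i)
  refine le_trans ?_ (h.energy_le hν ht)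
  refine (norm_fr_le_int k).trans ?_
  calc ∫ x in cube, |U t x i * U t x j| ≤ ∫ x in cube, (1 / 2 * U t x i ^ 2 + 1 / 2 * U t x j ^ 2) := by
        refine setIntegral_mono_on (integrableOn_cube (hci.mul hcj).abs)
          (integrableOn_cube ((hci.pow 2).const_mul _ |>.add ((hcj.pow 2).const_mul _)))
          measurableSet_Icc fun x _ => ?_
        rw [abs_mul]
        nlinarith [sq_nonneg (|U t x i| - |U t x j|), sq_abs (U t x i), sq_abs (U t x j)]
    _ = 1 / 2 * (∫ x in cube, U t x i ^ 2) + 1 / 2 * ∫ x in cube, U t x j ^ 2 := by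
        have h1 : IntegrableOn (fun x => 1 / 2 * U t x i ^ 2) cube :=
          integrableOn_cube (continuous_const.mul (hci.pow 2))
        have h2 : IntegrableOn (fun x => 1 / 2 * U t x j ^ 2) cube :=
          integrableOn_cube (continuous_const.mul (hcj.pow 2))
        rw [integral_add h1 h2, integral_const_mul, integral_const_mul]
    _ ≤ energy (U t) := by linarith [hn i, hn j]

/-- The derivatives of the coefficients are bounded. -/
theorem der_bd (h : IsSol ν T U P) (hν : 0 < ν) (k : K3) : ∃ C : ℝ, 0 ≤ C ∧ ∀ t ∈ Ioo 0 T,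
    ‖-(lam ν k : ℂ) • vf (U t) k - dvr (uu (U t)) k‖ ≤ C := by
  have hE : 0 ≤ energy (U 0) := energy_nonneg _
  refine ⟨|lam ν k| * Real.sqrt (energy (U 0)) + ‖dvL k‖ * energy (U 0), by positivity,
    fun t ht => ?_⟩
  have ht' : t ∈ Ico 0 T := ⟨ht.1.le, ht.2⟩
  refine (norm_sub_le _ _).trans (add_le_add ?_ ?_)
  · rw [norm_smul, norm_neg, Complex.norm_real, Real.norm_eq_abs]
    exact mul_le_mul_of_nonneg_left (norm_vf_le h hν ht' k) (abs_nonneg _)
  · rw [← dvL_apply]
    refine ((dvL k).le_opNorm _).trans (mul_le_mul_of_nonneg_left ?_ (norm_nonneg _))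
    exact (pi_norm_le_iff_of_nonneg hE).2 fun i => (pi_norm_le_iff_of_nonneg hE).2 fun j =>
      norm_uu_le h hν ht' i j k

theorem cont_loc (h : IsSol ν T U P) (k : K3) : ContinuousOn (fun s => vf (U s) k) (Ico 0 T) := by
  rw [continuousOn_pi]
  intro i
  exact fr_continuousOn (f := fun t y => U t y i) (h.smooth_c i).continuousOn k

/-- The coefficients are Lipschitz continuous. -/
theorem lip (h : IsSol ν T U P) (hν : 0 < ν) (k : K3) : ∃ C : ℝ, 0 ≤ C ∧ ∀ s t, 0 < s → s ≤ t →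
    t < T → ‖vf (U t) k - vf (U s) k‖ ≤ C * (t - s) := by
  obtain ⟨C, hC0, hC⟩ := der_bd h hν k
  refine ⟨C, hC0, fun s t hs hst ht => ?_⟩
  have hcv : Convex ℝ (Ioo (0 : ℝ) T) := convex_Ioo _ _
  have h1 := hcv.norm_image_sub_le_of_norm_hasDerivWithin_le (C := C)
    (f := fun s => vf (U s) k) (fun x hx => (der_uu h hx k).hasDerivWithinAt) hC
    (x := s) (y := t) ⟨hs, hst.trans_lt ht⟩ ⟨hs.trans_le hst, ht⟩
  rwa [Real.norm_of_nonneg (sub_nonneg.2 hst)] at h1

/-- The coefficients converge. -/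
theorem lim_loc (h : IsSol ν T U P) (hν : 0 < ν) (hT : 0 < T) (k : K3) :
    ∃ c : C3, Tendsto (fun t => vf (U t) k) (𝓝[<] T) (𝓝 c) := by
  rw [← cauchy_map_iff_exists_tendsto, Metric.cauchy_iff]
  refine ⟨inferInstance, fun ε hε => ?_⟩
  obtain ⟨C, hC0, hC⟩ := lip h hν k
  obtain ⟨s, hs0, hsT, hs⟩ : ∃ s, 0 < s ∧ s < T ∧ (C + 1) * (T - s) ≤ ε := by
    refine ⟨max (T / 2) (T - ε / (C + 1)), ?_, ?_, ?_⟩
    · exact lt_max_of_lt_left (by positivity)
    · exact max_lt (by linarith) (by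
        have : 0 < ε / (C + 1) := by positivity
        linarith)
    · have h1 : T - max (T / 2) (T - ε / (C + 1)) ≤ ε / (C + 1) := by
        have := le_max_right (T / 2) (T - ε / (C + 1))
        linarith
      calc (C + 1) * (T - max (T / 2) (T - ε / (C + 1))) ≤ (C + 1) * (ε / (C + 1)) :=
            mul_le_mul_of_nonneg_left h1 (by linarith)
        _ = ε := by field_simp
  refine ⟨(fun t => vf (U t) k) '' Ioo s T, image_mem_map (Ioo_mem_nhdsLT hsT), ?_⟩
  rintro _ ⟨a, ha, rfl⟩ _ ⟨b, hb, rfl⟩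
  rw [dist_eq_norm]
  have key : ∀ a b, a ∈ Ioo s T → b ∈ Ioo s T → a ≤ b → ‖vf (U b) k - vf (U a) k‖ < ε := by
    intro a b ha hb hab
    refine (hC a b (hs0.trans ha.1) hab hb.2).trans_lt ?_
    have h2 : b - a < T - s := by linarith [ha.1, hb.2]
    have h3 : 0 < T - s := by linarith
    nlinarith
  rcases le_total a b with hab | hab
  · rw [norm_sub_rev]
    exact key a b ha hb hab
  · exact key b a hb ha hab

/-- The mean is constant. -/
theorem mean_loc (h : IsSol ν T U P) {t : ℝ} (ht : t ∈ Ico 0 T) :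
    vf (U t) 0 = vf (U 0) 0 := by
  rcases ht.1.eq_or_lt with rfl | h0
  · rfl
  have hc : ContinuousOn (fun s => vf (U s) 0) (Icc 0 t) :=
    (cont_loc h 0).mono fun s hs => ⟨hs.1, hs.2.trans_lt ht.2⟩
  have hz : ∀ s ∈ Ioo 0 t, HasDerivAt (fun s => vf (U s) 0) 0 s := by
    intro s hs
    have h1 := der_uu h (t := s) ⟨hs.1, hs.2.trans ht.2⟩ 0
    have h3 : dvr (uu (U s)) 0 = 0 := by
      have h4 : (fun i => ∑ j, (((0 : K3) j : ℤ) : ℂ) * uu (U s) i j 0) = (0 : C3) := by
        funext i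
        simp
      unfold dvr
      rw [h4, ← prjC_apply, map_zero, smul_zero]
    have h2 : -(lam ν 0 : ℂ) • vf (U s) 0 - dvr (uu (U s)) 0 = 0 := by
      rw [h3]
      simp [lam, h782.GD.sq]
    rwa [h2] at h1
  have h5 := intervalIntegral.integral_eq_sub_of_hasDerivAt_of_le ht.1 hc hz
    (intervalIntegrable_const)
  rw [intervalIntegral.integral_zero] at h5
  exact (sub_eq_zero.1 h5.symm)

/-- **Piece A.** -/
theorem stmA : StmA := by
  intro ν T hν hT v q hv
  choose c hc using fun k => lim_loc hv hν hT k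
  have hne : ∀ᶠ t : ℝ in 𝓝[<] T, t ∈ Ioo 0 T := Ioo_mem_nhdsLT hT
  have hn : ∀ k, ‖c k‖ ≤ Real.sqrt (energy (v 0)) := fun k =>
    le_of_tendsto (hc k).norm (hne.mono fun t ht => norm_vf_le hv hν ⟨ht.1.le, ht.2⟩ k)
  have hdis : Dis c := by
    refine ⟨fun k i => ?_, fun k => ?_, ⟨Real.sqrt (energy (v 0)), 0, fun k => ?_⟩⟩
    · have h1 := (tendsto_pi_nhds.1 (hc (-k))) i
      have h2 := (Complex.continuous_conj.tendsto _).comp ((tendsto_pi_nhds.1 (hc k)) i)
      refine tendsto_nhds_unique h1 (h2.congr fun t => ?_)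
      exact (herm_vf (v t) k i).symm
    · have h1 : Tendsto (fun t => kd k (vf (v t) k)) (𝓝[<] T) (𝓝 (kd k (c k))) := by
        unfold kd
        exact tendsto_finsetSum _ fun j _ => ((tendsto_pi_nhds.1 (hc k)) j).const_mul _
      refine tendsto_nhds_unique h1 (tendsto_const_nhds.congr' ?_)
      filter_upwards [hne] with t ht
      exact (dv_loc hv ⟨ht.1.le, ht.2⟩ k).symm
    · simpa using hn k
  refine ⟨c, hdis, fun i => ?_, ?_, fun i ψ hψ hψp => ?_, fun i => ?_⟩
  · have h1 : Tendsto (fun _ : ℝ => vf (v 0) 0) (𝓝[<] T) (𝓝 (c 0)) := by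
      refine (hc 0).congr' ?_
      filter_upwards [hne] with t ht
      exact mean_loc hv ⟨ht.1.le, ht.2⟩
    have h2 := tendsto_nhds_unique h1 tendsto_const_nhds
    rw [h2, vf, h32.GD.fr_zero_eq]
  · refine summable_of_sum_le (c := energy (v 0)) (fun k => sq_nonneg _) fun A => ?_
    refine le_of_tendsto (tendsto_finsetSum A fun k _ => ((hc k).norm.pow 2)) ?_
    exact hne.mono fun t ht => bess hv hν ⟨ht.1.le, ht.2⟩ A
  · have hspφ : SP ψ := ⟨hψ, hψp⟩
    have hsum := ((rap_fr hspφ).summable.norm).mul_left (Real.sqrt (energy (v 0)))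
    have h1 : Tendsto (fun t => ∑' k, fr (fun x => v t x i) k * conj (fr ψ k)) (𝓝[<] T)
        (𝓝 (∑' k, c k i * conj (fr ψ k))) := by
      refine tendsto_tsum_of_dominated_convergence hsum
        (fun k => ((tendsto_pi_nhds.1 (hc k)) i).mul_const _) ?_
      filter_upwards [hne] with t ht k
      rw [norm_mul, RCLike.norm_conj]
      refine mul_le_mul_of_nonneg_right ?_ (norm_nonneg _)
      exact (norm_le_pi_norm (vf (v t) k) i).trans (norm_vf_le hv hν ⟨ht.1.le, ht.2⟩ k)
    have h3 := (Complex.continuous_re.tendsto _).comp h1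
    refine h3.congr' ?_
    filter_upwards [hne] with t ht
    show (∑' k, fr (fun x => v t x i) k * conj (fr ψ k)).re = _
    rw [← h980.WS.parseval (hv.sp ⟨ht.1.le, ht.2⟩ i) hψ.continuous, Complex.ofReal_re]
  · have hcont : ContinuousOn (fun z : ℝ × V => v z.1 z.2 i ^ 2) (Ioo 0 T ×ˢ cube) :=
      ((hv.smooth_c i).continuousOn.mono fun z hz => ⟨⟨hz.1.1.le, hz.1.2⟩, mem_univ _⟩).pow 2
    have hm := hcont.aestronglyMeasurable (μ := volume) (measurableSet_Ioo.prod measurableSet_Icc)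
    rw [IntegrableOn, restr]
    rw [restr] at hm
    refine (integrable_prod_iff hm).2 ⟨?_, ?_⟩
    · filter_upwards [ae_restrict_mem measurableSet_Ioo] with t ht
      exact integrableOn_cube ((hv.sp ⟨ht.1.le, ht.2⟩ i).smooth.continuous.pow 2)
    · have hb : ∀ᵐ t ∂(volume.restrict (Ioo 0 T)),
          ‖∫ x in cube, ‖v t x i ^ 2‖‖ ≤ energy (v 0) := by
        filter_upwards [ae_restrict_mem measurableSet_Ioo] with t ht
        have ht' : t ∈ Ico 0 T := ⟨ht.1.le, ht.2⟩
        rw [Real.norm_of_nonneg (integral_nonneg fun x => norm_nonneg _)]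
        refine le_trans ?_ (hv.energy_le hν ht')
        have e : (fun x => ‖v t x i ^ 2‖) = fun x => v t x i ^ 2 :=
          funext fun x => Real.norm_of_nonneg (sq_nonneg _)
        rw [e]
        exact Finset.single_le_sum (f := fun i => ∫ x in cube, v t x i ^ 2)
          (fun _ _ => integral_nonneg fun _ => sq_nonneg _) (Finset.mem_univ i)
      exact Integrable.of_bound hm.norm.integral_prod_right' (energy (v 0)) hb

end Pool.Agent.Run7.h219.OS
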