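import Pool.Agent.Run7.h969.GD.Tgt2
import Pool.Agent.Run7.h782.WQ.StrA
import Pool.Agent.H459R3.NS.High2

/-!
The equation for the Fourier coefficients of a smooth solution on `[0, T)`.
-/

set_option autoImplicit false

open MeasureTheory Set Filter Topology
open scoped ContDiff

namespace Pool.Agent.Run7.h219.OS

open H459R3.NS Pool.Agent.Run7.h782.GD Pool.Agent.Run7.h782 Pool.Agent.Run7.h969.GD
open Pool.Agent.Run7.h782.WQ Pool.Agent.Run7.h744.WS

variable {ν T : ℝ} {U : ℝ → V → V} {P : ℝ → V → ℝ}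

theorem dv_loc (h : IsSol ν T U P) {t : ℝ} (ht : t ∈ Ico 0 T) : Dv (vf (U t)) := fun k =>
  fr_div (v := fun i y => U t y i) (fun i => h.sp ht i) (h.divfree t ht) k

/-- The convolution term. -/
theorem conv_loc (h : IsSol ν T U P) {t : ℝ} (hI : t ∈ Ico 0 T) (k : K3) :
    (fun i => fr (conv (fun i y => U t y i) i) k)
      = (2 * Real.pi * Complex.I : ℂ) • ∑' p : K3, kd k (vf (U t) p) • vf (U t) (k - p) := by
  have hsp : ∀ i, SP (fun y => U t y i) := fun i => h.sp hI i
  have hz : (2 * Real.pi * Complex.I : ℂ) ≠ 0 := by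
    simp [Real.pi_ne_zero, Complex.I_ne_zero]
  have hs : ∀ i, HasSum (fun p => kd k (vf (U t) p) * fr (fun y => U t y i) (k - p))
      ((2 * Real.pi * Complex.I : ℂ)⁻¹ * fr (conv (fun i y => U t y i) i) k) := by
    intro i
    have h1 : fr (conv (fun i y => U t y i) i) k
        = ∑ j, fr (fun x => U t x j * pd j (fun y => U t y i) x) k :=
      fr_sum (fun j _ => (hsp j).mul ((hsp i).pd j)) k
    have h2 := hasSum_sum (s := Finset.univ) fun (j : Fin 3) _ =>
      h969.GD.fr_mul (hsp j) ((hsp i).pd j) k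
    rw [h1]
    have h5 := h2.mul_left ((2 * Real.pi * Complex.I : ℂ)⁻¹)
    refine (funext fun p => ?_ : (fun p => (2 * Real.pi * Complex.I : ℂ)⁻¹ *
      ∑ j, fr (fun y => U t y j) p * fr (pd j fun y => U t y i) (k - p))
      = fun p => kd k (vf (U t) p) * fr (fun y => U t y i) (k - p)) ▸ h5
    have h3 : kd (k - p) (vf (U t) p) = kd k (vf (U t) p) := by
      rw [kd_sub_left, dv_loc h hI p, sub_zero]
    have h4 : ∑ j, fr (fun y => U t y j) p * fr (pd j fun y => U t y i) (k - p)
        = (2 * Real.pi * Complex.I : ℂ) * (kd (k - p) (vf (U t) p) * fr (fun y => U t y i) (k - p)) := by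
      rw [kd, Finset.sum_mul, Finset.mul_sum]
      refine Finset.sum_congr rfl fun j _ => ?_
      rw [fr_pd (hsp i), D, vf]
      push_cast [Pi.sub_apply]
      ring
    rw [h4, h3, inv_mul_cancel_left₀ hz]
  have hs' : HasSum (fun p => kd k (vf (U t) p) • vf (U t) (k - p))
      (fun i => (2 * Real.pi * Complex.I : ℂ)⁻¹ * fr (conv (fun i y => U t y i) i) k) := by
    rw [Pi.hasSum]
    intro i
    exact hs i
  rw [hs'.tsum_eq]
  funext i
  rw [Pi.smul_apply, smul_eq_mul, mul_inv_cancel_left₀ hz]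

/-- The equation for the coefficients. -/
theorem der_loc (hT : IsSol ν T U P) {t : ℝ} (hO : t ∈ Ioo 0 T) (k : K3) :
    HasDerivAt (fun s => vf (U s) k)
      (-(lam ν k : ℂ) • vf (U t) k - nl (vf (U t)) (vf (U t)) k) t := by
  have hI : t ∈ Ico 0 T := ⟨hO.1.le, hO.2⟩
  have hsp : ∀ i, SP (fun y => U t y i) := fun i => hT.sp hI i
  obtain ⟨W, hW⟩ : ∃ W : C3, W = fun i => fr (conv (fun i y => U t y i) i) k := ⟨_, rfl⟩
  have hnl : nl (vf (U t)) (vf (U t)) k = prj k W := by
    rw [hW, conv_loc hT hI k, prj_smul, nl]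
  obtain ⟨q, hq⟩ : ∃ q : ℂ, q = 2 * Real.pi * Complex.I * fr (P t) k := ⟨_, rfl⟩
  have hD : HasDerivAt (fun s => vf (U s) k)
      (-(lam ν k : ℂ) • vf (U t) k - W - fun i => (k i : ℂ) * q) t := by
    rw [hasDerivAt_pi]
    intro i
    refine (fr_hasDerivAt (f := fun s y => U s y i) (hT.smooth_c i) k hO).congr_deriv ?_
    have e1 : dt (fun s y => U s y i) t = fun x => (ν * lap (fun y => U t y i) x
        - conv (fun i y => U t y i) i x) - pd i (P t) x := funext fun x => hT.dt_eq hO i x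
    have hc1 : SP (conv (fun i y => U t y i) i) := sp_conv (v := fun i y => U t y i) hsp i
    have c1 : Continuous fun x => ν * lap (fun y => U t y i) x :=
      continuous_const.mul (hsp i).lap.smooth.continuous
    have c2 : Continuous fun x => ν * lap (fun y => U t y i) x
        - conv (fun i y => U t y i) i x := c1.sub hc1.smooth.continuous
    have c3 : Continuous fun x => pd i (P t) x := ((hT.sp_p hI).pd i).smooth.continuous
    rw [e1, Pool.Agent.Run7.h32.GD.fr_sub c2 c3,
      Pool.Agent.Run7.h32.GD.fr_sub c1 hc1.smooth.continuous, fr_const_mul, fr_lap (hsp i)]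
    have e2 : fr (fun x => pd i (P t) x) k = 2 * Real.pi * Complex.I * (k i : ℂ) * fr (P t) k := by
      have := congrFun (fr_pd (hT.sp_p hI) i) k
      exact this
    rw [e2]
    simp only [Pi.sub_apply, Pi.smul_apply, smul_eq_mul, hW, hq, vf, lam]
    push_cast
    ring
  have hkd : HasDerivAt (fun s => kd k (vf (U s) k))
      (kd k (-(lam ν k : ℂ) • vf (U t) k - W - fun i => (k i : ℂ) * q)) t := by
    have h1 := HasDerivAt.fun_sum (u := Finset.univ) fun (j : Fin 3) _ =>
      ((hasDerivAt_pi.1 hD) j).const_mul (k j : ℂ)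
    exact h1
  have hzero : kd k (-(lam ν k : ℂ) • vf (U t) k - W - fun i => (k i : ℂ) * q) = 0 := by
    have h1 : HasDerivAt (fun s => kd k (vf (U s) k)) 0 t := by
      refine (hasDerivAt_const t (0 : ℂ)).congr_of_eventuallyEq ?_
      filter_upwards [Ioo_mem_nhds hO.1 hO.2] with s hs
      exact dv_loc hT ⟨hs.1.le, hs.2⟩ k
    exact hkd.unique h1
  have hfin : (-(lam ν k : ℂ) • vf (U t) k - W - fun i => (k i : ℂ) * q)
      = -(lam ν k : ℂ) • vf (U t) k - nl (vf (U t)) (vf (U t)) k := by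
    rw [← prj_of_kd_eq_zero hzero, prj_sub, prj_sub, prj_smul, prj_grad, sub_zero,
      prj_of_kd_eq_zero (dv_loc hT hI k), hnl]
  rw [← hfin]
  exact hD

/-- The equation for the coefficients, with the products. -/
theorem der_uu (hT : IsSol ν T U P) {t : ℝ} (hO : t ∈ Ioo 0 T) (k : K3) :
    HasDerivAt (fun s => vf (U s) k) (-(lam ν k : ℂ) • vf (U t) k - dvr (uu (U t)) k) t := by
  rw [← nl_eq (fun i => hT.sp ⟨hO.1.le, hO.2⟩ i)]
  exact der_loc hT hO k

end Pool.Agent.Run7.h219.OS
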